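import Pool.Agent.K1H14.SE.Stm
import Pool.Agent.K1H94.SD.Lnk1

set_option autoImplicit false

/-! The Clifford algebra satisfies `FullCl`: `t_LF1`. -/

namespace Pool.Agent.K1H28.SE

open Pool.Agent.K1H14.KS Pool.Agent.K1H14.SD Pool.Agent.K1H14.SE CliffordAlgebra
open Pool.Agent.K1H94.SD
open scoped symmDiff

universe u

section mono

variable {R : Type*} [Ring R] [Algebra ℂ R] {I : Type*} [LinearOrder I] {E : I → R}

lemma sg_all (K : Finset I) (j : I) :
    sg j (K.sort (· ≤ ·)) = (-1) ^ K.card * (if j ∈ K then -1 else 1) := by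
  have h := sg_count j (K.sort (· ≤ ·))
  rw [Finset.length_sort] at h
  by_cases hj : j ∈ K
  · rw [List.count_eq_one_of_mem (Finset.sort_nodup _ _) ((Finset.mem_sort _).2 hj)] at h
    rw [if_pos hj, ← h]
    ring
  · rw [List.count_eq_zero_of_not_mem (by rw [Finset.mem_sort]; exact hj)] at h
    rw [if_neg hj, ← h]
    ring

lemma mono_comm_all (hE : Anti E) (K L : Finset I) :
    mono E (K.sort (· ≤ ·)) * mono E (L.sort (· ≤ ·)) =
      (-1 : ℂ) ^ (K.card * L.card + (K ∩ L).card) •
        (mono E (L.sort (· ≤ ·)) * mono E (K.sort (· ≤ ·))) := by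
  rw [mono_swap hE, prod_sort]
  congr 1
  rw [Finset.prod_congr rfl fun j _ => sg_all K j, Finset.prod_mul_distrib, Finset.prod_const,
    ← pow_mul, Finset.prod_ite, Finset.prod_const, Finset.prod_const_one, mul_one,
    Finset.filter_mem_eq_inter, Finset.inter_comm, pow_add]

lemma sign_eq (k : ℕ) : (-1 : ℂ) ^ (k / 2) = (-1 : ℂ) ^ (k * (k - 1) / 2) := by
  rcases Nat.even_or_odd' k with ⟨m, hm | hm⟩
  · subst hm
    have h1 : 2 * m / 2 = m := by omega
    have h2 : 2 * m * (2 * m - 1) / 2 = m * (2 * m - 1) := by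
      rw [mul_assoc]; exact Nat.mul_div_cancel_left _ two_pos
    rw [h1, h2]
    rcases m with _ | m
    · simp
    · have h3 : 2 * (m + 1) - 1 = 2 * m + 1 := by omega
      have h4 : (m + 1) * (2 * m + 1) = (m + 1) + 2 * (m * (m + 1)) := by ring
      rw [h3, h4, pow_add (-1 : ℂ) (m + 1) (2 * (m * (m + 1))), pow_mul (-1 : ℂ) 2]
      simp
  · subst hm
    have h1 : (2 * m + 1) / 2 = m := by omega
    have h2 : (2 * m + 1) * (2 * m + 1 - 1) / 2 = (2 * m + 1) * m := by
      have h3 : (2 * m + 1) * (2 * m + 1 - 1) = 2 * ((2 * m + 1) * m) := by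
        rw [Nat.add_sub_cancel]; ring
      rw [h3]; exact Nat.mul_div_cancel_left _ two_pos
    have h4 : (2 * m + 1) * m = m + 2 * (m * m) := by ring
    rw [h1, h2, h4, pow_add, pow_mul]
    simp

end mono

section cl

variable {T : Type u} [AddCommGroup T] [Module ℂ T] {Q : QuadraticForm ℂ T} {d : ℕ}
  {b : Module.Basis (Fin d) ℂ T}

lemma MF_singleton (i : Fin d) : MF (Q := Q) b {i} = ι Q (b i) := by
  unfold MF
  rw [Finset.sort_singleton, mono_cons, mono_nil, mul_one]

lemma mono_span (hb : ONB Q b) (l : List (Fin d)) : mono (fun i => ι Q (b i)) l ∈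
    Submodule.span ℂ {x | ∃ K : Finset (Fin d), x = MF (Q := Q) b K} := by
  obtain ⟨ε, -, h4⟩ := mono_par hb.anti l
  rw [h4]
  exact Submodule.smul_mem _ _ (Submodule.subset_span ⟨par l, rfl⟩)

lemma ι_eq_sum (v : T) : ι Q v = ∑ i, b.repr v i • ι Q (b i) := by
  conv_lhs => rw [← b.sum_repr v]
  rw [map_sum]
  simp only [map_smul]

lemma all_span (hb : ONB Q b) (x : CliffordAlgebra Q) : x ∈
    Submodule.span ℂ {x | ∃ K : Finset (Fin d), x = MF (Q := Q) b K} := by
  induction x using CliffordAlgebra.induction with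
  | algebraMap r =>
    rw [Algebra.algebraMap_eq_smul_one]
    exact Submodule.smul_mem _ _ (mono_span hb [])
  | ι v =>
    rw [ι_eq_sum (b := b) v]
    refine Submodule.sum_mem _ fun i _ => Submodule.smul_mem _ _ ?_
    exact Submodule.subset_span ⟨{i}, (MF_singleton i).symm⟩
  | mul x y hx hy =>
    have h1 := Submodule.mul_mem_mul hx hy
    rw [Submodule.span_mul_span] at h1
    refine (Submodule.span_le.2 ?_) h1
    rintro z ⟨x, ⟨K, rfl⟩, y, ⟨L, rfl⟩, rfl⟩
    show MF (Q := Q) b K * MF (Q := Q) b L ∈ _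
    unfold MF
    rw [← mono_append]
    exact mono_span hb _
  | add x y hx hy => exact Submodule.add_mem _ hx hy

end cl

theorem t_LF1 : S_LF1.{u} := by
  intro T _ _ Q d b hd hb
  have hE := hb.anti
  refine ⟨⟨hd, one_ne_zero, ?_, ?_, ?_, ?_, ?_, ?_, ?_, ?_⟩, ?_, ?_⟩
  · unfold MF
    simp
  · intro K L
    obtain ⟨ε, h1, h2⟩ := mono_par hE (K.sort (· ≤ ·) ++ L.sort (· ≤ ·))
    refine ⟨ε, h1, ?_⟩
    rw [par_append, par_sort, par_sort, mono_append] at h2
    exact h2
  · intro K L
    exact mono_comm_all hE K L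
  · intro K
    unfold MF
    rw [reverse_mono, mono_reverse hE _ (Finset.sort_nodup _ _), Finset.length_sort, sign_eq]
  · intro K
    unfold MF
    rw [reverse_mono, reverse_mul_mono hE]
  · intro x y
    rw [reverse.map_mul]
  · intro x
    exact reverse_reverse x
  · exact all_span hb
  · intro x
    constructor
    · intro hx
      have h1 : EvS (MF (Q := Q) b) ≤ evenOdd Q 0 := by
        unfold EvS
        rw [Submodule.span_le]
        rintro y ⟨K, hK, rfl⟩
        have h2 := mono_mem (Q := Q) b (K.sort (· ≤ ·))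
        rw [Finset.length_sort] at h2
        have h3 : ((K.card : ℕ) : ZMod 2) = 0 := (ZMod.natCast_eq_zero_iff_even).2 hK
        rw [h3] at h2
        exact h2
      exact h1 hx
    · intro hx
      have h1 : x ∈ Sev (fun i => ι Q (b i)) := even_le b _ hx
      have h2 : Sev (fun i => ι Q (b i)) ≤ EvS (MF (Q := Q) b) := by
        unfold Sev
        rw [Submodule.span_le]
        rintro y ⟨l, hl, rfl⟩
        obtain ⟨ε, -, h4⟩ := mono_par hE l
        rw [SetLike.mem_coe, h4]
        exact Submodule.smul_mem _ _ (Submodule.subset_span ⟨par l, (par_card l).2 hl, rfl⟩)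
      exact h2 h1
  · intro x
    constructor
    · intro hx
      have h1 : Lev (MF (Q := Q) b) 1 ≤ LinearMap.range (ι Q) := by
        unfold Lev
        rw [Submodule.span_le]
        rintro y ⟨K, hK, rfl⟩
        obtain ⟨i, rfl⟩ := Finset.card_eq_one.1 hK
        exact ⟨b i, (MF_singleton i).symm⟩
      obtain ⟨v, hv⟩ := h1 hx
      exact ⟨v, hv.symm⟩
    · rintro ⟨v, rfl⟩
      rw [ι_eq_sum (b := b) v]
      refine Submodule.sum_mem _ fun i _ => Submodule.smul_mem _ _ ?_
      exact Submodule.subset_span ⟨{i}, Finset.card_singleton i, (MF_singleton i).symm⟩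

end Pool.Agent.K1H28.SE
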